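import Pool.Agent.helper34.AC.Spec3

/-!
# Project ac: (MP_e0bd72_co), module SLP: slope of `om`
-/

set_option autoImplicit false

open Filter Topology

namespace Pool.Agent.helper34.AC

theorem SLP_core (δ C g w x y i : ℝ) (hδ : 0 < δ) (hδ1 : δ ≤ 1 / 4) (hC : 0 < C)
    (hδC : 2 * C * δ ≤ 1) (hg : 0 < g) (hw : 1 / δ ≤ w) (h8 : (1 + w) ^ 8 ≤ δ * g) (hx0 : 0 < x)
    (hx1 : x ≤ 1) (hxw : |x * w - 1| ≤ δ) (h1 : |1 - w * x - x| ≤ δ * x)
    (hy : |y - x ^ 3 / g| ≤ δ * (x ^ 3 / g)) (_hy0 : 0 < y) (hi0 : 0 ≤ i) (hi : i ≤ (1 + w) ^ 2) :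
    (1 - 3 * δ) * x ≤ 1 - w * x - w * y * (i / 2) - C * w * i ^ 2 / g ^ 2 := by
  have hδw : 1 ≤ δ * w := by
    have hw' := hw
    rw [div_le_iff₀ hδ] at hw'
    linarith
  have hw4 : 4 ≤ w := by
    have h4 : 4 ≤ 1 / δ := by
      rw [le_div_iff₀ hδ]
      linarith
    exact h4.trans hw
  have hw0 : 0 < w := by linarith
  have hw1 : 1 ≤ 1 + w := by linarith
  have p3 : w * (1 + w) ^ 2 ≤ δ * g := by
    calc w * (1 + w) ^ 2 ≤ (1 + w) * (1 + w) ^ 2 :=
          mul_le_mul_of_nonneg_right (by linarith) (by positivity)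
      _ = (1 + w) ^ 3 := by ring
      _ ≤ (1 + w) ^ 8 := pow_le_pow_right₀ hw1 (by norm_num)
      _ ≤ δ * g := h8
  have p6 : w ^ 2 * (1 + w) ^ 4 ≤ δ * g := by
    calc w ^ 2 * (1 + w) ^ 4 ≤ (1 + w) ^ 2 * (1 + w) ^ 4 :=
          mul_le_mul_of_nonneg_right (pow_le_pow_left₀ hw0.le (by linarith) 2) (by positivity)
      _ = (1 + w) ^ 6 := by ring
      _ ≤ (1 + w) ^ 8 := pow_le_pow_right₀ hw1 (by norm_num)
      _ ≤ δ * g := h8
  have p1 : w ≤ δ * g := by
    calc w ≤ 1 + w := by linarith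
      _ = (1 + w) ^ 1 := (pow_one _).symm
      _ ≤ (1 + w) ^ 8 := pow_le_pow_right₀ hw1 (by norm_num)
      _ ≤ δ * g := h8
  have hgC : 2 * C ≤ g := by
    have h2 : 2 * C * δ ≤ g * δ := by
      have e1 : 1 ≤ w := by linarith
      linarith
    exact le_of_mul_le_mul_right h2 hδ
  have hy' : y ≤ (1 + δ) * (x ^ 3 / g) := by
    have := (abs_le.1 hy).2
    linarith
  have hx3 : x ^ 3 ≤ x := by
    have : x ^ 3 ≤ x ^ 1 := pow_le_pow_of_le_one hx0.le hx1 (by norm_num)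
    rwa [pow_one] at this
  have hA : w * y * (i / 2) ≤ δ * x := by
    calc w * y * (i / 2) ≤ w * ((1 + δ) * (x ^ 3 / g)) * ((1 + w) ^ 2 / 2) := by
          gcongr
      _ = (1 + δ) / 2 * x ^ 3 * ((w * (1 + w) ^ 2) / g) := by ring
      _ ≤ (1 + δ) / 2 * x ^ 3 * δ := by
          gcongr
          rw [div_le_iff₀ hg]
          exact p3
      _ ≤ 1 * x ^ 3 * δ := by
          gcongr
          linarith
      _ ≤ 1 * x * δ := by gcongr
      _ = δ * x := by ring
  have h2xw : 1 ≤ 2 * x * w := by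
    have := (abs_le.1 hxw).1
    linarith
  have hB : C * w * i ^ 2 / g ^ 2 ≤ δ * x := by
    rw [div_le_iff₀ (by positivity)]
    calc C * w * i ^ 2 ≤ C * w * ((1 + w) ^ 2) ^ 2 := by gcongr
      _ = C * w * (1 + w) ^ 4 * 1 := by ring
      _ ≤ C * w * (1 + w) ^ 4 * (2 * x * w) := by gcongr
      _ = 2 * C * x * (w ^ 2 * (1 + w) ^ 4) := by ring
      _ ≤ g * x * (δ * g) := by gcongr
      _ = δ * x * g ^ 2 := by ring
  have h3 := (abs_le.1 h1).1
  linarith

theorem SLP_gb_one (hD23 : D23_stmt) (n : ℕ) : 1 ≤ gb n := by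
  have h := hD23.2.2.2 0 n (Nat.zero_le n)
  have h0 : gb 0 = 1 := by
    unfold gb bl
    simp
  rwa [h0] at h

theorem SLP (hTAY : TAY_stmt) (hASY : ASY_stmt) (hOMF : OMF_stmt) (hD23 : D23_stmt) :
    SLP_stmt := by
  obtain ⟨C, hC, M₀, hT⟩ := hTAY
  intro e he
  set δ : ℝ := min (min (e / 3) (1 / 4)) (1 / (2 * C)) with hδd
  have hδ : 0 < δ := by
    refine lt_min (lt_min (by positivity) (by norm_num)) (by positivity)
  have hδe : δ ≤ e / 3 := (min_le_left _ _).trans (min_le_left _ _)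
  have hδ1 : δ ≤ 1 / 4 := (min_le_left _ _).trans (min_le_right _ _)
  have hδC : 2 * C * δ ≤ 1 := by
    have : δ ≤ 1 / (2 * C) := min_le_right _ _
    rw [le_div_iff₀ (by positivity)] at this
    linarith
  obtain ⟨M₁, hA⟩ := hASY δ hδ
  refine ⟨max (max M₀ M₁) 1, fun m hm i hi => ?_⟩
  have hmM0 : M₀ ≤ m := ((le_max_left _ _).trans (le_max_left _ _)).trans hm
  have hmM1 : M₁ ≤ m := ((le_max_right _ _).trans (le_max_left _ _)).trans hm
  have hm1 : 1 ≤ m := (le_max_right _ _).trans hm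
  obtain ⟨a1, a2, -, a4, a5, a6, a7, a8⟩ := hA m hmM1
  have hx1 : xx m ≤ 1 := by
    obtain ⟨n, rfl⟩ : ∃ n, m = n + 1 := ⟨m - 1, by omega⟩
    exact (hD23.1 n).2
  have hg1 := SLP_gb_one hD23 m
  have hg : 0 < gb m := by linarith
  have hw0 : 0 ≤ om m := (hOMF.1 m).1
  have hcore := SLP_core δ C (gb m) (om m) (xx m) (yy m) i hδ hδ1 hC hδC hg a5 a4 a8 hx1 a1
    (by simpa using a6) a2 a7 (Nat.cast_nonneg i) hi
  have hmw : (m : ℝ) = om m * gb m := by
    unfold om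
    rw [div_mul_cancel₀ _ hg.ne']
  have hδw : 1 ≤ δ * om m := by
    have := a5
    rw [div_le_iff₀ hδ] at this
    linarith
  have hw4 : 4 ≤ om m := by
    have h4 : 4 ≤ 1 / δ := by
      rw [le_div_iff₀ hδ]
      linarith
    exact h4.trans a5
  have hig : (1 + om m) ^ 2 ≤ δ * gb m :=
    (pow_le_pow_right₀ (by linarith) (by norm_num)).trans a4
  have hig' : (i : ℝ) ≤ δ * gb m := hi.trans hig
  have h2i : 2 * i ≤ m := by
    have h2 : (2 : ℝ) * i ≤ m := by
      rw [hmw]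
      have e1 : δ * gb m ≤ 1 / 4 * gb m := mul_le_mul_of_nonneg_right hδ1 hg.le
      have e2 : 4 * gb m ≤ om m * gb m := mul_le_mul_of_nonneg_right hw4 hg.le
      linarith
    exact_mod_cast h2
  have him : i ≤ m := by omega
  have ht := (abs_le.1 (hT m hmM0 i him)).2
  have hc2 : ((i.choose 2 : ℕ) : ℝ) ≤ (i : ℝ) ^ 2 / 2 := by
    have := Nat.choose_le_pow_div (α := ℝ) 2 i
    simpa using this
  have hc3 : ((i.choose 3 : ℕ) : ℝ) ≤ (i : ℝ) ^ 3 := by
    have h3 := Nat.choose_le_pow_div (α := ℝ) 3 i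
    have h4 : (i : ℝ) ^ 3 / ((Nat.factorial 3 : ℕ) : ℝ) ≤ (i : ℝ) ^ 3 := by
      refine div_le_self (by positivity) ?_
      norm_num [Nat.factorial]
    exact h3.trans h4
  set d := gb m - gb (m - i) with hd
  have hdle : d ≤ (i : ℝ) * xx m + (i : ℝ) ^ 2 / 2 * yy m + C * (i : ℝ) ^ 3 / gb m ^ 2 := by
    have e1 : ((i.choose 2 : ℕ) : ℝ) * yy m ≤ (i : ℝ) ^ 2 / 2 * yy m :=
      mul_le_mul_of_nonneg_right hc2 a7.le
    have e2 : C * ((i.choose 3 : ℕ) : ℝ) / gb m ^ 2 ≤ C * (i : ℝ) ^ 3 / gb m ^ 2 := by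
      gcongr
    linarith
  have hkey : (1 - 3 * δ) * xx m * (i * gb m) ≤ i * gb m - m * d := by
    have e1 : (m : ℝ) * d ≤ om m * gb m *
        ((i : ℝ) * xx m + (i : ℝ) ^ 2 / 2 * yy m + C * (i : ℝ) ^ 3 / gb m ^ 2) := by
      rw [hmw]
      exact mul_le_mul_of_nonneg_left hdle (by positivity)
    have e2 : om m * gb m *
        ((i : ℝ) * xx m + (i : ℝ) ^ 2 / 2 * yy m + C * (i : ℝ) ^ 3 / gb m ^ 2) =
        (i * gb m) * (om m * xx m + om m * yy m * (i / 2) + C * om m * (i : ℝ) ^ 2 / gb m ^ 2) := by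
      ring
    have e3 := mul_le_mul_of_nonneg_right hcore
      (show (0 : ℝ) ≤ i * gb m by positivity)
    rw [e2] at e1
    have e4 : (1 - om m * xx m - om m * yy m * ((i : ℝ) / 2) -
        C * om m * (i : ℝ) ^ 2 / gb m ^ 2) * (i * gb m) = i * gb m -
        (i * gb m) * (om m * xx m + om m * yy m * (i / 2) + C * om m * (i : ℝ) ^ 2 / gb m ^ 2) := by
      ring
    rw [e4] at e3
    linarith
  have hkey0 : 0 ≤ i * gb m - m * d := by
    refine le_trans ?_ hkey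
    have : 0 ≤ 1 - 3 * δ := by linarith
    positivity
  have hg' := SLP_gb_one hD23 (m - i)
  have hgg : gb (m - i) ≤ gb m := hD23.2.2.2 _ _ (Nat.sub_le m i)
  have hg'0 : 0 < gb (m - i) := by linarith
  refine ⟨h2i, ?_, ?_⟩
  · have e1 : om m - om (m - i) = (i * gb m - m * d) / (gb m * gb (m - i)) := by
      unfold om
      rw [Nat.cast_sub him, hd]
      field_simp
      ring
    rw [e1]
    have e2 : (i * gb m - m * d) / (gb m * gb m) ≤ (i * gb m - m * d) / (gb m * gb (m - i)) := by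
      gcongr
    refine le_trans ?_ e2
    rw [le_div_iff₀ (by positivity)]
    have e3 : (1 - e) * (i : ℝ) * xx m / gb m * (gb m * gb m) = (1 - e) * xx m * (i * gb m) := by
      field_simp
    rw [e3]
    refine le_trans ?_ hkey
    have e4 : 0 ≤ xx m * (i * gb m) := by positivity
    rw [mul_assoc, mul_assoc (1 - 3 * δ)]
    exact mul_le_mul_of_nonneg_right (by linarith) e4
  · have hdi : d ≤ i := by
      have e1 : (m : ℝ) * d ≤ i * gb m := by linarith
      rw [hmw] at e1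
      have e2 : om m * d ≤ i := by
        have e3 : (om m * d) * gb m ≤ i * gb m := by linarith
        exact le_of_mul_le_mul_right e3 hg
      rcases le_or_gt d 0 with h | h
      · exact h.trans (Nat.cast_nonneg i)
      · exact (le_mul_of_one_le_left h.le (by linarith)).trans e2
    have e1 : d ≤ δ * gb m := hdi.trans hig'
    have e2 : (1 - δ) * gb m ≤ gb (m - i) := by
      rw [hd] at e1
      linarith
    have e3 : gb m ≤ (1 + 3 * δ) * gb (m - i) := by
      have e4 : (1 + 3 * δ) * ((1 - δ) * gb m) ≤ (1 + 3 * δ) * gb (m - i) :=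
        mul_le_mul_of_nonneg_left e2 (by linarith)
      have e5 : gb m ≤ (1 + 3 * δ) * ((1 - δ) * gb m) := by
        have e6 : 0 ≤ δ * (2 - 3 * δ) := mul_nonneg hδ.le (by linarith)
        have e7 : 1 ≤ (1 + 3 * δ) * (1 - δ) := by linarith
        have e8 := mul_le_mul_of_nonneg_right e7 hg.le
        linarith
      linarith
    refine e3.trans ?_
    exact mul_le_mul_of_nonneg_right (by linarith) hg'0.le

end Pool.Agent.helper34.AC
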